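import Mathlib

/-!
# The self-similar Cantor set `C` of ratio `1/16` and the enumeration of the rationals
-/

namespace Pool.Agent.X238.Sums

open Set Filter Topology

noncomputable section

/-- ratio -/
def rr : ℝ := 1 / 16

theorem rr_pos : 0 < rr := by unfold rr; norm_num
theorem rr_lt : rr < 1 := by unfold rr; norm_num

/-- total sum `1/(1-r)` -/
def MM : ℝ := 16 / 15

/-- value of a digit sequence -/
def dg (e : ℕ → Bool) (i : ℕ) : ℝ := if e i then rr ^ i else 0

theorem dg_nonneg (e : ℕ → Bool) (i : ℕ) : 0 ≤ dg e i := by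
  unfold dg; split_ifs
  · exact pow_nonneg rr_pos.le _
  · exact le_refl _

theorem dg_le (e : ℕ → Bool) (i : ℕ) : dg e i ≤ rr ^ i := by
  unfold dg; split_ifs
  · exact le_refl _
  · exact pow_nonneg rr_pos.le _

theorem summable_geo : Summable (fun i : ℕ => rr ^ i) :=
  summable_geometric_of_lt_one rr_pos.le rr_lt

theorem tsum_geo : ∑' i : ℕ, rr ^ i = MM := by
  rw [tsum_geometric_of_lt_one rr_pos.le rr_lt]
  unfold rr MM; norm_num

theorem summable_dg (e : ℕ → Bool) : Summable (dg e) :=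
  Summable.of_nonneg_of_le (dg_nonneg e) (dg_le e) summable_geo

/-- the Cantor set -/
def CC : Set ℝ := Set.range (fun e : ℕ → Bool => ∑' i, dg e i)

theorem CC_compact : IsCompact CC := by
  apply isCompact_range
  apply continuous_tsum (u := fun i : ℕ => rr ^ i)
  · intro i
    have h1 : Continuous (fun e : ℕ → Bool => e i) := continuous_apply i
    have h2 : Continuous (fun b : Bool => if b then rr ^ i else (0:ℝ)) := continuous_of_discreteTopology
    exact h2.comp h1
  · exact summable_geo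
  · intro i e
    rw [Real.norm_eq_abs, abs_of_nonneg (dg_nonneg e i)]
    exact dg_le e i

theorem CC_nonneg {c : ℝ} (h : c ∈ CC) : 0 ≤ c := by
  obtain ⟨e, rfl⟩ := h
  exact tsum_nonneg (dg_nonneg e)

theorem CC_le {c : ℝ} (h : c ∈ CC) : c ≤ MM := by
  obtain ⟨e, rfl⟩ := h
  rw [← tsum_geo]
  exact (summable_dg e).tsum_le_tsum (dg_le e) summable_geo

theorem CC_sym {c : ℝ} (h : c ∈ CC) : MM - c ∈ CC := by
  obtain ⟨e, rfl⟩ := h
  refine ⟨fun i => !(e i), ?_⟩
  have h1 : (fun i => dg (fun i => !(e i)) i) = fun i => rr ^ i - dg e i := by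
    funext i
    unfold dg
    rcases Bool.eq_false_or_eq_true (e i) with h | h <;> simp [h]
  show ∑' i, dg (fun i => !(e i)) i = _
  rw [h1, summable_geo.tsum_sub (summable_dg e), tsum_geo]

theorem zero_mem_CC : (0 : ℝ) ∈ CC := by
  refine ⟨fun _ => false, ?_⟩
  simp [dg]

theorem MM_mem_CC : MM ∈ CC := by
  have := CC_sym zero_mem_CC
  simpa using this

theorem tsum_dg_succ (e : ℕ → Bool) :
    ∑' i, dg e i = (if e 0 then 1 else 0) + rr * ∑' i, dg (fun i => e (i + 1)) i := by
  rw [(summable_dg e).tsum_eq_zero_add, ← tsum_mul_left]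
  have h1 : dg e 0 = (if e 0 then 1 else 0) := by unfold dg; simp
  have h2 : ∀ i, dg e (i + 1) = rr * dg (fun i => e (i + 1)) i := by
    intro i
    unfold dg
    split_ifs
    · rw [pow_succ]; ring
    · simp
  rw [h1, tsum_congr h2]

theorem CC_rec {c : ℝ} (h : c ∈ CC) : ∃ c' ∈ CC, c = rr * c' ∨ c = 1 + rr * c' := by
  obtain ⟨e, rfl⟩ := h
  refine ⟨_, ⟨fun i => e (i + 1), rfl⟩, ?_⟩
  show ∑' i, dg e i = _ ∨ ∑' i, dg e i = _
  rw [tsum_dg_succ]
  cases e 0 <;> simp

theorem CC_zero_cons {c : ℝ} (h : c ∈ CC) : rr * c ∈ CC := by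
  obtain ⟨e, rfl⟩ := h
  refine ⟨fun i => match i with | 0 => false | (j + 1) => e j, ?_⟩
  show ∑' i, dg _ i = _
  rw [tsum_dg_succ]
  simp

theorem CC_one_cons {c : ℝ} (h : c ∈ CC) : 1 + rr * c ∈ CC := by
  obtain ⟨e, rfl⟩ := h
  refine ⟨fun i => match i with | 0 => true | (j + 1) => e j, ?_⟩
  show ∑' i, dg _ i = _
  rw [tsum_dg_succ]
  simp

theorem CC_pow_cons {c : ℝ} (h : c ∈ CC) (n : ℕ) : rr ^ n * c ∈ CC := by
  induction n with
  | zero => simpa using h
  | succ n ih =>
    have := CC_zero_cons ih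
    rw [pow_succ]
    have h2 : rr ^ n * rr * c = rr * (rr ^ n * c) := by ring
    rw [h2]; exact this

/-- dichotomy: either the first `n+1` digits vanish or the number is at least `r^n` -/
theorem CC_dich (n : ℕ) : ∀ {c : ℝ}, c ∈ CC → (∃ c' ∈ CC, c = rr ^ (n + 1) * c') ∨ rr ^ n ≤ c := by
  induction n with
  | zero =>
    intro c h
    obtain ⟨c', h', h1 | h1⟩ := CC_rec h
    · left; exact ⟨c', h', by simpa using h1⟩
    · right
      have := CC_nonneg h'
      have hr := rr_pos
      rw [h1]; simp only [pow_zero]; nlinarith [mul_nonneg hr.le this]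
  | succ n ih =>
    intro c h
    have hr := rr_pos
    obtain ⟨c', h', h1 | h1⟩ := CC_rec h
    · rcases ih h' with ⟨c2, h2, h3⟩ | h3
      · left; refine ⟨c2, h2, ?_⟩
        rw [h1, h3]; ring
      · right
        rw [h1, pow_succ]
        calc rr ^ n * rr = rr * rr ^ n := by ring
          _ ≤ rr * c' := by apply mul_le_mul_of_nonneg_left h3 hr.le
    · right
      have h4 := CC_nonneg h'
      have h5 : rr ^ (n + 1) ≤ 1 := pow_le_one₀ rr_pos.le rr_lt.le
      rw [h1]
      nlinarith [mul_nonneg hr.le h4]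

/-- enumeration of the rationals -/
def qq (n : ℕ) : ℝ := (((Denumerable.eqv ℚ).symm n : ℚ) : ℝ)

theorem exists_qq {x y : ℝ} (h : x < y) : ∃ n, x < qq n ∧ qq n < y := by
  obtain ⟨q, h1, h2⟩ := exists_rat_btwn h
  refine ⟨Denumerable.eqv ℚ q, ?_⟩
  unfold qq
  rw [Equiv.symm_apply_apply]
  exact ⟨h1, h2⟩

end

end Pool.Agent.X238.Sums
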