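import Pool.Agent.X238.Sums.Phi

/-!
# Continuity of the coding map
-/

namespace Pool.Agent.X238.Sums

open Set Filter Topology
open scoped Classical

noncomputable section

theorem PL_eq {P : Set ℝ} {x y : ℝ} (h : y ∈ PL P x) : PL P y = PL P x := by
  unfold PL; rw [h.2.2]

theorem PR_eq {P : Set ℝ} {x y : ℝ} (h : y ∈ PR P x) : PR P y = PR P x := by
  unfold PR; rw [h.2.2]

theorem PF_eq {P : Set ℝ} {x y : ℝ} (h : y ∈ PF P x) : PF P y = PF P x := by
  have h2 := h.2
  unfold PF; rw [h2]

theorem Phi_cont_aux (n : ℕ) : ∀ P, Good P → ∀ x ∈ P, ∃ U : Set ℝ, IsOpen U ∧ x ∈ U ∧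
    ∀ y ∈ U, y ∈ P → |Phi P y - Phi P x| ≤ 5 * rr ^ n := by
  induction n with
  | zero =>
    intro P hP x hx
    refine ⟨univ, isOpen_univ, mem_univ _, ?_⟩
    intro y _ _
    obtain ⟨b1, b2⟩ := Phi_bound P x
    obtain ⟨c1, c2⟩ := Phi_bound P y
    rw [pow_zero, mul_one, abs_le]; constructor <;> linarith
  | succ n ih =>
    intro P hP x hx
    obtain ⟨q1, q2⟩ := pw n
    by_cases hi : (interior P).Nonempty
    · have hab := ab_lt hP.cpt hi
      rcases lt_or_ge x (aa P) with hxa | hxa
      · have hpc := PL_piece hP.cpt hi hx hxa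
        obtain ⟨U0, hU0, -, hT⟩ := hpc.ex
        obtain ⟨U1, hU1, hx1, h1⟩ := ih (PL P x) (hpc.good hP) x hpc.mem
        have hxU0 : x ∈ U0 := by have := hpc.mem; rw [hT] at this; exact this.2
        refine ⟨U0 ∩ U1, hU0.inter hU1, ⟨hxU0, hx1⟩, ?_⟩
        intro y hy hyP
        have hyT : y ∈ PL P x := by rw [hT]; exact ⟨hyP, hy.1⟩
        have h2 := h1 y hy.2 hyT
        rw [Phi_left hi hxa, Phi_left hi hyT.2.1, PL_eq hyT, hyT.2.2]
        have h3 : 1 - rr ^ jL P x + rr ^ (jL P x + 1) * Phi (PL P x) y -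
            (1 - rr ^ jL P x + rr ^ (jL P x + 1) * Phi (PL P x) x) =
            rr ^ (jL P x + 1) * (Phi (PL P x) y - Phi (PL P x) x) := by ring
        rw [h3, abs_mul, abs_of_pos (pow_pos rr_pos _)]
        obtain ⟨p1, p2⟩ := pw (jL P x)
        calc rr ^ (jL P x + 1) * |Phi (PL P x) y - Phi (PL P x) x| ≤ rr * (5 * rr ^ n) := by
              apply mul_le_mul _ h2 (abs_nonneg _) rr_pos.le
              rw [pws]; unfold rr at *; linarith
          _ = 5 * rr ^ (n + 1) := by ring
      · rcases lt_or_ge (bb P) x with hxb | hxb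
        · have hpc := PR_piece hP.cpt hi hx hxb
          obtain ⟨U0, hU0, -, hT⟩ := hpc.ex
          obtain ⟨U1, hU1, hx1, h1⟩ := ih (PR P x) (hpc.good hP) x hpc.mem
          have hxU0 : x ∈ U0 := by have := hpc.mem; rw [hT] at this; exact this.2
          refine ⟨U0 ∩ U1, hU0.inter hU1, ⟨hxU0, hx1⟩, ?_⟩
          intro y hy hyP
          have hyT : y ∈ PR P x := by rw [hT]; exact ⟨hyP, hy.1⟩
          have h2 := h1 y hy.2 hyT
          rw [Phi_right hP.cpt hi hxb, Phi_right hP.cpt hi hyT.2.1, PR_eq hyT, hyT.2.2]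
          have h3 : 4 + rr ^ jR P x - rr ^ (jR P x + 1) * Phi (PR P x) y -
              (4 + rr ^ jR P x - rr ^ (jR P x + 1) * Phi (PR P x) x) =
              -(rr ^ (jR P x + 1) * (Phi (PR P x) y - Phi (PR P x) x)) := by ring
          rw [h3, abs_neg, abs_mul, abs_of_pos (pow_pos rr_pos _)]
          obtain ⟨p1, p2⟩ := pw (jR P x)
          calc rr ^ (jR P x + 1) * |Phi (PR P x) y - Phi (PR P x) x| ≤ rr * (5 * rr ^ n) := by
                apply mul_le_mul _ h2 (abs_nonneg _) rr_pos.le
                rw [pws]; unfold rr at *; linarith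
            _ = 5 * rr ^ (n + 1) := by ring
        · -- the middle interval
          have hpos : 0 < bb P - aa P := by linarith
          obtain ⟨s1, s2⟩ := pw (n + 1)
          refine ⟨Metric.ball x ((bb P - aa P) * rr ^ (n + 1) / 3) ∩
            ({y | ∀ i < n + 1, qq i < aa P → y ∈ Ioi (qq i)} ∩
             {y | ∀ i < n + 1, bb P < qq i → y ∈ Iio (qq i)}),
            Metric.isOpen_ball.inter ((isOpen_fin _ _ _ (fun i => isOpen_Ioi)).inter
              (isOpen_fin _ _ _ (fun i => isOpen_Iio))), ⟨?_, ?_, ?_⟩, ?_⟩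
          · apply Metric.mem_ball_self; positivity
          · intro i _ h; exact lt_of_lt_of_le h hxa
          · intro i _ h; exact lt_of_le_of_lt hxb h
          · rintro y ⟨hy1, hy2, hy3⟩ hyP
            rw [Metric.mem_ball, Real.dist_eq, abs_lt] at hy1
            obtain ⟨d1, d2⟩ := hy1
            have hx0 := Phi_mid hi hxa hxb
            have ex : (x - aa P) / (bb P - aa P) * (bb P - aa P) = x - aa P := by
              field_simp
            rcases lt_or_ge y (aa P) with hya | hya
            · obtain ⟨⟨k1, k2, k3⟩, k4⟩ := jL_spec hP.cpt hi hya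
              have hj : n + 1 ≤ jL P y := by
                by_contra hlt
                rw [not_le] at hlt
                have := hy2 _ hlt k3
                exact absurd this (not_lt.mpr k2.le)
              have hpw : rr ^ jL P y ≤ rr ^ (n + 1) :=
                pow_le_pow_of_le_one rr_pos.le rr_lt.le hj
              obtain ⟨e1, e2⟩ := Phi_left_bd hi hya
              obtain ⟨p1, p2⟩ := pw (jL P y)
              have f1 : (x - aa P) / (bb P - aa P) ≤ rr ^ (n + 1) / 3 := by
                rw [div_le_iff₀ hpos]; nlinarith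
              have f2 : 0 ≤ (x - aa P) / (bb P - aa P) := div_nonneg (by linarith) hpos.le
              rw [hx0, abs_le]
              constructor <;> linarith
            · rcases lt_or_ge (bb P) y with hyb | hyb
              · obtain ⟨⟨k1, k2, k3⟩, k4⟩ := jR_spec hP.cpt hi hyb
                have hj : n + 1 ≤ jR P y := by
                  by_contra hlt
                  rw [not_le] at hlt
                  have := hy3 _ hlt k2
                  exact absurd this (not_lt.mpr k3.le)
                have hpw : rr ^ jR P y ≤ rr ^ (n + 1) :=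
                  pow_le_pow_of_le_one rr_pos.le rr_lt.le hj
                obtain ⟨e1, e2⟩ := Phi_right_bd hP.cpt hi hyb
                obtain ⟨p1, p2⟩ := pw (jR P y)
                have f1 : 1 - rr ^ (n + 1) / 3 ≤ (x - aa P) / (bb P - aa P) := by
                  rw [le_div_iff₀ hpos]; nlinarith
                have f2 : (x - aa P) / (bb P - aa P) ≤ 1 := div_le_one_of_le₀ (by linarith) hpos.le
                rw [hx0, abs_le]
                constructor <;> linarith
              · rw [hx0, Phi_mid hi hya hyb]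
                have f3 : (y - aa P) / (bb P - aa P) - (x - aa P) / (bb P - aa P) =
                    (y - x) / (bb P - aa P) := by ring
                have f1 : (y - x) / (bb P - aa P) ≤ rr ^ (n + 1) / 3 := by
                  rw [div_le_iff₀ hpos]; nlinarith
                have f2 : - (rr ^ (n + 1) / 3) ≤ (y - x) / (bb P - aa P) := by
                  rw [le_div_iff₀ hpos]; nlinarith
                rw [abs_le]
                constructor <;> linarith
    · have hs := hP.split hi hx
      have hpc := PF_piece hP.cpt hs hx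
      obtain ⟨U0, hU0, -, hT⟩ := hpc.ex
      obtain ⟨U1, hU1, hx1, h1⟩ := ih (PF P x) (hpc.good hP) x hpc.mem
      have hxU0 : x ∈ U0 := by have := hpc.mem; rw [hT] at this; exact this.2
      refine ⟨U0 ∩ U1, hU0.inter hU1, ⟨hxU0, hx1⟩, ?_⟩
      intro y hy hyP
      have hyT : y ∈ PF P x := by rw [hT]; exact ⟨hyP, hy.1⟩
      have h2 := h1 y hy.2 hyT
      have h4 : |rr * (Phi (PF P x) y - Phi (PF P x) x)| ≤ 5 * rr ^ (n + 1) := by
        rw [abs_mul, abs_of_pos rr_pos]
        calc rr * |Phi (PF P x) y - Phi (PF P x) x| ≤ rr * (5 * rr ^ n) :=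
              mul_le_mul_of_nonneg_left h2 rr_pos.le
          _ = 5 * rr ^ (n + 1) := by ring
      by_cases hx2 : qq (kap P) < x
      · rw [Phi_free1 hi hx2, Phi_free1 hi (hyT.2.mpr hx2), PF_eq hyT]
        have h3 : 1 + rr * Phi (PF P x) y - (1 + rr * Phi (PF P x) x) =
            rr * (Phi (PF P x) y - Phi (PF P x) x) := by ring
        rw [h3]; exact h4
      · rw [Phi_free0 hi hx2, Phi_free0 hi (fun h => hx2 (hyT.2.mp h)), PF_eq hyT, ← mul_sub]
        exact h4

theorem Phi_cont {P : Set ℝ} (hP : Good P) : ContinuousOn (Phi P) P := by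
  intro x hx
  rw [Metric.continuousWithinAt_iff]
  intro ε hε
  have h1 : Tendsto (fun n : ℕ => 5 * rr ^ n) atTop (𝓝 (5 * 0)) :=
    (tendsto_pow_atTop_nhds_zero_of_lt_one rr_pos.le rr_lt).const_mul 5
  rw [mul_zero] at h1
  obtain ⟨n, hn⟩ := (h1.eventually (gt_mem_nhds hε)).exists
  obtain ⟨U, hU, hxU, h2⟩ := Phi_cont_aux n P hP x hx
  obtain ⟨δ, hδ, hs⟩ := Metric.isOpen_iff.mp hU x hxU
  refine ⟨δ, hδ, ?_⟩
  intro y hy hd
  rw [Real.dist_eq]
  exact lt_of_le_of_lt (h2 y (hs hd) hy) hn

theorem W_compact {P : Set ℝ} (hP : Good P) : IsCompact (Phi P '' P) :=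
  hP.cpt.image_of_continuousOn (Phi_cont hP)

end

end Pool.Agent.X238.Sums
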