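import Pool.Agent.X238.Sums.Pieces

/-!
# The coding map `Phi P : P → ℝ`
-/

namespace Pool.Agent.X238.Sums

open Set Filter Topology
open scoped Classical

noncomputable section

/-- next piece -/
def Nx (P : Set ℝ) (x : ℝ) : Set ℝ :=
  if (interior P).Nonempty then
    if x < aa P then PL P x else if bb P < x then PR P x else P
  else PF P x

/-- offset -/
def al (P : Set ℝ) (x : ℝ) : ℝ :=
  if (interior P).Nonempty then
    if x < aa P then 1 - rr ^ jL P x
    else if bb P < x then 4 + rr ^ jR P x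
    else 1 + 3 * ((x - aa P) / (bb P - aa P))
  else if qq (kap P) < x then 1 else 0

/-- scaling factor -/
def be (P : Set ℝ) (x : ℝ) : ℝ :=
  if (interior P).Nonempty then
    if x < aa P then rr ^ (jL P x + 1)
    else if bb P < x then - rr ^ (jR P x + 1)
    else 0
  else rr

theorem pw (n : ℕ) : 0 < rr ^ n ∧ rr ^ n ≤ 1 := ⟨pow_pos rr_pos _, pow_le_one₀ rr_pos.le rr_lt.le⟩

theorem pws (n : ℕ) : rr ^ (n + 1) = rr ^ n / 16 := by rw [pow_succ]; unfold rr; ring

theorem step_bound (P : Set ℝ) (x t : ℝ) (h0 : 0 ≤ t) (h5 : t ≤ 5) :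
    0 ≤ al P x + be P x * t ∧ al P x + be P x * t ≤ 5 := by
  unfold al be
  split_ifs with h1 h2 h3 h4
  · obtain ⟨p1, p2⟩ := pw (jL P x)
    rw [pws]
    constructor <;> nlinarith [mul_nonneg p1.le h0, mul_nonneg p1.le (sub_nonneg.mpr h5)]
  · obtain ⟨p1, p2⟩ := pw (jR P x)
    rw [pws]
    constructor <;> nlinarith [mul_nonneg p1.le h0, mul_nonneg p1.le (sub_nonneg.mpr h5)]
  · rw [not_lt] at h2 h3
    have h6 : 0 ≤ (x - aa P) / (bb P - aa P) := div_nonneg (by linarith) (by linarith)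
    have h7 : (x - aa P) / (bb P - aa P) ≤ 1 := div_le_one_of_le₀ (by linarith) (by linarith)
    constructor <;> nlinarith
  · unfold rr; constructor <;> linarith
  · unfold rr; constructor <;> linarith

theorem be_abs (P : Set ℝ) (x : ℝ) : |be P x| ≤ rr := by
  have h : ∀ n : ℕ, |rr ^ (n + 1)| ≤ rr := by
    intro n
    obtain ⟨p1, p2⟩ := pw n
    rw [abs_of_pos (pow_pos rr_pos _), pws]; unfold rr at *; linarith
  unfold be
  split_ifs
  · exact h _
  · rw [abs_neg]; exact h _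
  · rw [abs_zero]; exact rr_pos.le
  · rw [abs_of_pos rr_pos]

/-- approximations -/
def phi : ℕ → Set ℝ → ℝ → ℝ
  | 0, _, _ => 0
  | n + 1, P, x => al P x + be P x * phi n (Nx P x) x

theorem phi_bound (n : ℕ) : ∀ P x, 0 ≤ phi n P x ∧ phi n P x ≤ 5 := by
  induction n with
  | zero => intro P x; simp [phi]
  | succ n ih => intro P x; exact step_bound P x _ (ih _ _).1 (ih _ _).2

theorem phi_step (n : ℕ) : ∀ P x, dist (phi n P x) (phi (n + 1) P x) ≤ 5 * rr ^ n := by
  induction n with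
  | zero =>
    intro P x
    have := phi_bound 1 P x
    rw [Real.dist_eq]
    show |0 - phi 1 P x| ≤ _
    rw [zero_sub, abs_neg, abs_of_nonneg this.1]; simpa using this.2
  | succ n ih =>
    intro P x
    rw [Real.dist_eq]
    show |(al P x + be P x * phi n (Nx P x) x) - (al P x + be P x * phi (n + 1) (Nx P x) x)| ≤ _
    have h1 : (al P x + be P x * phi n (Nx P x) x) - (al P x + be P x * phi (n + 1) (Nx P x) x)
      = be P x * (phi n (Nx P x) x - phi (n + 1) (Nx P x) x) := by ring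
    rw [h1, abs_mul]
    have h2 := ih (Nx P x) x
    rw [Real.dist_eq] at h2
    calc |be P x| * |phi n (Nx P x) x - phi (n + 1) (Nx P x) x| ≤ rr * (5 * rr ^ n) :=
          mul_le_mul (be_abs P x) h2 (abs_nonneg _) rr_pos.le
      _ = 5 * rr ^ (n + 1) := by ring

/-- the coding map -/
def Phi (P : Set ℝ) (x : ℝ) : ℝ := limUnder atTop (fun n => phi n P x)

theorem Phi_tendsto (P : Set ℝ) (x : ℝ) : Tendsto (fun n => phi n P x) atTop (𝓝 (Phi P x)) :=
  (cauchySeq_of_le_geometric rr 5 rr_lt (fun n => phi_step n P x)).tendsto_limUnder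

theorem Phi_bound (P : Set ℝ) (x : ℝ) : 0 ≤ Phi P x ∧ Phi P x ≤ 5 :=
  ⟨ge_of_tendsto' (Phi_tendsto P x) fun n => (phi_bound n P x).1,
   le_of_tendsto' (Phi_tendsto P x) fun n => (phi_bound n P x).2⟩

theorem Phi_rec (P : Set ℝ) (x : ℝ) : Phi P x = al P x + be P x * Phi (Nx P x) x := by
  have h1 : Tendsto (fun n => phi (n + 1) P x) atTop (𝓝 (Phi P x)) :=
    (tendsto_add_atTop_iff_nat 1).mpr (Phi_tendsto P x)
  have h2 : Tendsto (fun n => al P x + be P x * phi n (Nx P x) x) atTop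
      (𝓝 (al P x + be P x * Phi (Nx P x) x)) :=
    ((Phi_tendsto (Nx P x) x).const_mul _).const_add _
  exact tendsto_nhds_unique h1 h2

theorem Phi_left {P : Set ℝ} (hi : (interior P).Nonempty) {x : ℝ} (h : x < aa P) :
    Phi P x = 1 - rr ^ jL P x + rr ^ (jL P x + 1) * Phi (PL P x) x := by
  rw [Phi_rec]; simp only [al, be, Nx, if_pos hi, if_pos h]

theorem ab_lt {P : Set ℝ} (hP : IsCompact P) (hi : (interior P).Nonempty) : aa P < bb P :=
  (a_facts hP hi).1.trans (b_facts hP hi).1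

theorem ab_sub {P : Set ℝ} (hP : IsCompact P) (hi : (interior P).Nonempty) :
    Icc (aa P) (bb P) ⊆ P := by
  intro z hz
  rcases le_total z (qq (lam P)) with h | h
  · exact (a_facts hP hi).2.1 ⟨hz.1, h⟩
  · exact (b_facts hP hi).2.1 ⟨h, hz.2⟩

theorem Phi_right {P : Set ℝ} (hP : IsCompact P) (hi : (interior P).Nonempty) {x : ℝ} (h : bb P < x) :
    Phi P x = 4 + rr ^ jR P x - rr ^ (jR P x + 1) * Phi (PR P x) x := by
  have h2 : ¬ x < aa P := not_lt.mpr ((ab_lt hP hi).trans h).le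
  rw [Phi_rec]; simp only [al, be, Nx, if_pos hi, if_pos h, if_neg h2]; ring

theorem Phi_mid {P : Set ℝ} (hi : (interior P).Nonempty) {x : ℝ} (h1 : aa P ≤ x) (h2 : x ≤ bb P) :
    Phi P x = 1 + 3 * ((x - aa P) / (bb P - aa P)) := by
  rw [Phi_rec]; simp only [al, be, Nx, if_pos hi, if_neg (not_lt.mpr h1), if_neg (not_lt.mpr h2)]; ring

theorem Phi_free1 {P : Set ℝ} (hi : ¬ (interior P).Nonempty) {x : ℝ} (h : qq (kap P) < x) :
    Phi P x = 1 + rr * Phi (PF P x) x := by
  rw [Phi_rec]; simp only [al, be, Nx, if_neg hi, if_pos h]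

theorem Phi_free0 {P : Set ℝ} (hi : ¬ (interior P).Nonempty) {x : ℝ} (h : ¬ qq (kap P) < x) :
    Phi P x = rr * Phi (PF P x) x := by
  rw [Phi_rec]; simp only [al, be, Nx, if_neg hi, if_neg h]; ring

theorem Phi_left_bd {P : Set ℝ} (hi : (interior P).Nonempty) {x : ℝ} (h : x < aa P) :
    1 - rr ^ jL P x ≤ Phi P x ∧ Phi P x ≤ 1 - rr ^ jL P x + 5 / 16 * rr ^ jL P x := by
  rw [Phi_left hi h, pws]
  obtain ⟨p1, p2⟩ := pw (jL P x)
  obtain ⟨b1, b2⟩ := Phi_bound (PL P x) x
  constructor <;> nlinarith [mul_nonneg p1.le b1, mul_nonneg p1.le (sub_nonneg.mpr b2)]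

theorem Phi_right_bd {P : Set ℝ} (hP : IsCompact P) (hi : (interior P).Nonempty) {x : ℝ}
    (h : bb P < x) :
    4 + rr ^ jR P x - 5 / 16 * rr ^ jR P x ≤ Phi P x ∧ Phi P x ≤ 4 + rr ^ jR P x := by
  rw [Phi_right hP hi h, pws]
  obtain ⟨p1, p2⟩ := pw (jR P x)
  obtain ⟨b1, b2⟩ := Phi_bound (PR P x) x
  constructor <;> nlinarith [mul_nonneg p1.le b1, mul_nonneg p1.le (sub_nonneg.mpr b2)]

theorem Phi_mid_bd {P : Set ℝ} (hi : (interior P).Nonempty) {x : ℝ} (h1 : aa P ≤ x) (h2 : x ≤ bb P) :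
    1 ≤ Phi P x ∧ Phi P x ≤ 4 := by
  rw [Phi_mid hi h1 h2]
  have h6 : 0 ≤ (x - aa P) / (bb P - aa P) := div_nonneg (by linarith) (by linarith)
  have h7 : (x - aa P) / (bb P - aa P) ≤ 1 := div_le_one_of_le₀ (by linarith) (by linarith)
  constructor <;> nlinarith

theorem pow_lt_step {i j : ℕ} (h : i < j) : rr ^ j ≤ rr ^ i / 16 := by
  rw [← pws]
  exact pow_le_pow_of_le_one rr_pos.le rr_lt.le h

/-- values in different left pieces differ -/
theorem left_ne {P : Set ℝ} (hi : (interior P).Nonempty) {x y : ℝ} (hx : x < aa P) (hy : y < aa P)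
    (h : jL P x < jL P y) : Phi P x < Phi P y := by
  have h1 := (Phi_left_bd hi hx).2
  have h2 := (Phi_left_bd hi hy).1
  have h3 := pow_lt_step h
  obtain ⟨p1, p2⟩ := pw (jL P x)
  linarith

theorem right_ne {P : Set ℝ} (hP : IsCompact P) (hi : (interior P).Nonempty) {x y : ℝ}
    (hx : bb P < x) (hy : bb P < y) (h : jR P x < jR P y) : Phi P y < Phi P x := by
  have h1 := (Phi_right_bd hP hi hx).1
  have h2 := (Phi_right_bd hP hi hy).2
  have h3 := pow_lt_step h
  obtain ⟨p1, p2⟩ := pw (jR P x)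
  linarith

/-- active indices -/
def Act (P : Set ℝ) (j : ℕ) : Prop := Split P j ∨ qq j ∈ interior P

theorem Piece.split {P T : Set ℝ} {x : ℝ} (h : Piece P T x) {j : ℕ} (hj : Split T j) : Split P j := by
  obtain ⟨h1, ⟨u, hu, hu2⟩, ⟨v, hv, hv2⟩⟩ := hj
  refine ⟨fun h2 => h1 (h.conv hu hv h2 hu2.le hv2.le), ⟨u, h.sub hu, hu2⟩, ⟨v, h.sub hv, hv2⟩⟩

theorem Piece.act {P T : Set ℝ} {x : ℝ} (h : Piece P T x) {j : ℕ} (hj : Act T j) : Act P j := by
  rcases hj with hj | hj
  · exact Or.inl (h.split hj)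
  · exact Or.inr (interior_mono h.sub hj)

theorem kap_not_act {P T : Set ℝ} {x : ℝ} (h : Piece P T x) (hs : Split P (kap P))
    (h1 : ∀ u ∈ T, ∀ v ∈ T, u < qq (kap P) → qq (kap P) < v → False) : ¬ Act T (kap P) := by
  rintro (hj | hj)
  · obtain ⟨-, ⟨u, hu, hu2⟩, ⟨v, hv, hv2⟩⟩ := hj
    exact h1 u hu v hv hu2 hv2
  · exact hs.1 (h.sub (interior_subset hj))

theorem PL_kap {P : Set ℝ} (hP : IsCompact P) (hi : (interior P).Nonempty) {x : ℝ}
    (hs : Split P (kap P)) :
    ∀ u ∈ PL P x, ∀ v ∈ PL P x, u < qq (kap P) → qq (kap P) < v → False := by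
  rintro u ⟨hu, hua, huj⟩ v ⟨hv, hva, hvj⟩ h1 h2
  have ha : aa P ∈ P := ab_sub hP hi ⟨le_refl _, (ab_lt hP hi).le⟩
  obtain ⟨⟨k1, k2, k3⟩, k4⟩ := jL_spec hP hi hua
  obtain ⟨⟨l1, l2, l3⟩, l4⟩ := jL_spec hP hi hva
  have h3 : qq (kap P) < aa P := h2.trans hva
  have h4 : jL P u ≤ kap P := Nat.sInf_le ⟨hs.1, h1, h3⟩
  have h5 : kap P ≤ jL P u := Nat.sInf_le ⟨k1, ⟨u, hu, k2⟩, ⟨aa P, ha, k3⟩⟩
  have h6 : jL P v = kap P := by rw [hvj, ← huj]; exact le_antisymm h4 h5
  rw [h6] at l2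
  exact absurd l2 (not_lt.mpr h2.le)

theorem PR_kap {P : Set ℝ} (hP : IsCompact P) (hi : (interior P).Nonempty) {x : ℝ}
    (hs : Split P (kap P)) :
    ∀ u ∈ PR P x, ∀ v ∈ PR P x, u < qq (kap P) → qq (kap P) < v → False := by
  rintro u ⟨hu, hua, huj⟩ v ⟨hv, hva, hvj⟩ h1 h2
  have ha : bb P ∈ P := ab_sub hP hi ⟨(ab_lt hP hi).le, le_refl _⟩
  obtain ⟨⟨k1, k2, k3⟩, k4⟩ := jR_spec hP hi hua
  obtain ⟨⟨l1, l2, l3⟩, l4⟩ := jR_spec hP hi hva
  have h3 : bb P < qq (kap P) := hua.trans h1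
  have h4 : jR P v ≤ kap P := Nat.sInf_le ⟨hs.1, h3, h2⟩
  have h5 : kap P ≤ jR P v := Nat.sInf_le ⟨l1, ⟨bb P, ha, l2⟩, ⟨v, hv, l3⟩⟩
  have h6 : jR P u = kap P := by rw [huj, ← hvj]; exact le_antisymm h4 h5
  rw [h6] at k3
  exact absurd k3 (not_lt.mpr h1.le)

theorem PF_kap {P : Set ℝ} {x : ℝ} :
    ∀ u ∈ PF P x, ∀ v ∈ PF P x, u < qq (kap P) → qq (kap P) < v → False := by
  rintro u ⟨hu, hu2⟩ v ⟨hv, hv2⟩ h1 h2
  have := hu2.mpr (hv2.mp h2)
  exact absurd this (not_lt.mpr h1.le)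

/-- an active index is lost when passing to a piece, interior case -/
theorem drop_int {P T : Set ℝ} {x : ℝ} (hi : (interior P).Nonempty)
    (h : Piece P T x) (hk : Split P (kap P) → ∀ u ∈ T, ∀ v ∈ T, u < qq (kap P) → qq (kap P) < v → False)
    (hl : (∀ u ∈ T, u < qq (lam P)) ∨ (∀ u ∈ T, qq (lam P) < u)) {k : ℕ} (hkA : Act P k) :
    ∃ j ≤ k, Act P j ∧ ¬ Act T j := by
  rcases hkA with hs | hint
  · have h1 : Split P (kap P) := kap_spec ⟨k, hs⟩
    exact ⟨kap P, Nat.sInf_le hs, Or.inl h1, kap_not_act h h1 (hk h1)⟩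
  · refine ⟨lam P, Nat.sInf_le hint, Or.inr (lam_mem hi), ?_⟩
    rintro (hj | hj)
    · obtain ⟨-, ⟨u, hu, hu2⟩, ⟨v, hv, hv2⟩⟩ := hj
      rcases hl with hl | hl
      · exact absurd (hl v hv) (not_lt.mpr hv2.le)
      · exact absurd (hl u hu) (not_lt.mpr hu2.le)
    · have := interior_subset hj
      rcases hl with hl | hl
      · exact lt_irrefl _ (hl _ this)
      · exact lt_irrefl _ (hl _ this)

theorem drop_free {P T : Set ℝ} {x : ℝ} (hi : ¬ (interior P).Nonempty)
    (h : Piece P T x) (hk : ∀ u ∈ T, ∀ v ∈ T, u < qq (kap P) → qq (kap P) < v → False)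
    {k : ℕ} (hkA : Act P k) : ∃ j ≤ k, Act P j ∧ ¬ Act T j := by
  rcases hkA with hs | hint
  · have h1 : Split P (kap P) := kap_spec ⟨k, hs⟩
    exact ⟨kap P, Nat.sInf_le hs, Or.inl h1, kap_not_act h h1 hk⟩
  · exact absurd ⟨_, hint⟩ hi

theorem ncard_drop {P T : Set ℝ} {x : ℝ} (h : Piece P T x) {k : ℕ}
    (hd : ∃ j ≤ k, Act P j ∧ ¬ Act T j) {n : ℕ} (hn : {j | j ≤ k ∧ Act P j}.ncard ≤ n + 1) :
    {j | j ≤ k ∧ Act T j}.ncard ≤ n := by
  have h1 : {j | j ≤ k ∧ Act T j} ⊂ {j | j ≤ k ∧ Act P j} := by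
    rw [ssubset_iff_subset_ne]
    refine ⟨fun j hj => ⟨hj.1, h.act hj.2⟩, ?_⟩
    intro he
    obtain ⟨j, hj1, hj2, hj3⟩ := hd
    have : j ∈ {j | j ≤ k ∧ Act P j} := ⟨hj1, hj2⟩
    rw [← he] at this
    exact hj3 this.2
  have hf : {j | j ≤ k ∧ Act P j}.Finite := (Set.finite_le_nat k).subset (fun j hj => hj.1)
  have := Set.ncard_lt_ncard h1 hf
  omega

theorem Piece.cond {P T : Set ℝ} {x : ℝ} (h : Piece P T x) {k : ℕ}
    (hk : qq k ∉ P ∨ qq k ∈ interior P) : qq k ∉ T ∨ qq k ∈ interior T := by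
  by_cases h1 : qq k ∈ T
  · right
    rcases hk with hk | hk
    · exact absurd (h.sub h1) hk
    · obtain ⟨U, hU, hc, hT⟩ := h.ex
      rw [hT] at h1 ⊢
      rw [interior_inter, hU.interior_eq]
      exact ⟨hk, h1.2⟩
  · exact Or.inl h1

theorem act_of {P : Set ℝ} {k : ℕ} {x y : ℝ} (hx : x ∈ P) (hy : y ∈ P) (h1 : x < qq k) (h2 : qq k < y)
    (hk : qq k ∉ P ∨ qq k ∈ interior P) : Act P k := by
  rcases hk with hk | hk
  · exact Or.inl ⟨hk, ⟨x, hx, h1⟩, ⟨y, hy, h2⟩⟩
  · exact Or.inr hk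

theorem Phi_inj_aux (n : ℕ) : ∀ P, Good P → ∀ k x y, x ∈ P → y ∈ P → x < qq k → qq k < y →
    (qq k ∉ P ∨ qq k ∈ interior P) → ({j | j ≤ k ∧ Act P j}.ncard ≤ n) → Phi P x ≠ Phi P y := by
  induction n with
  | zero =>
    intro P hP k x y hx hy h1 h2 hk hn
    exfalso
    have hf : {j | j ≤ k ∧ Act P j}.Finite := (Set.finite_le_nat k).subset (fun j hj => hj.1)
    have h3 : {j | j ≤ k ∧ Act P j} = ∅ := by
      rw [← Set.ncard_eq_zero hf]; omega
    have h4 : k ∈ {j | j ≤ k ∧ Act P j} := ⟨le_refl _, act_of hx hy h1 h2 hk⟩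
    rw [h3] at h4; exact h4
  | succ n ih =>
    intro P hP k x y hx hy h1 h2 hk hn
    have hact := act_of hx hy h1 h2 hk
    have hxy : x < y := h1.trans h2
    by_cases hi : (interior P).Nonempty
    · have hab := ab_lt hP.cpt hi
      obtain ⟨a1, a2, -⟩ := a_facts hP.cpt hi
      obtain ⟨b1, b2, -⟩ := b_facts hP.cpt hi
      rcases lt_or_ge x (aa P) with hxa | hxa
      · rcases lt_or_ge y (aa P) with hya | hya
        · rcases lt_trichotomy (jL P x) (jL P y) with hj | hj | hj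
          · exact (left_ne hi hxa hya hj).ne
          · have hpc := PL_piece hP.cpt hi hx hxa
            have hT : PL P y = PL P x := by unfold PL; rw [hj]
            have hyT : y ∈ PL P x := ⟨hy, hya, hj.symm⟩
            have h5 := ih (PL P x) (hpc.good hP) k x y hpc.mem hyT h1 h2 (hpc.cond hk)
              (ncard_drop hpc (drop_int hi hpc (fun hs => PL_kap hP.cpt hi hs)
                (Or.inl fun u hu => hu.2.1.trans a1) hact) hn)
            intro he
            rw [Phi_left hi hxa, Phi_left hi hya, hT, ← hj] at he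
            have h6 : rr ^ (jL P x + 1) * Phi (PL P x) x = rr ^ (jL P x + 1) * Phi (PL P x) y := by
              linarith
            exact h5 (mul_left_cancel₀ (pow_pos rr_pos _).ne' h6)
          · exact (left_ne hi hya hxa hj).ne'
        · have h3 : Phi P x < 1 := by
            have := (Phi_left_bd hi hxa).2
            obtain ⟨p1, p2⟩ := pw (jL P x)
            linarith
          have h4 : 1 ≤ Phi P y := by
            rcases lt_or_ge (bb P) y with hyb | hyb
            · have := (Phi_right_bd hP.cpt hi hyb).1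
              obtain ⟨p1, p2⟩ := pw (jR P y)
              linarith
            · exact (Phi_mid_bd hi hya hyb).1
          exact (lt_of_lt_of_le h3 h4).ne
      · rcases lt_or_ge (bb P) x with hxb | hxb
        · have hyb : bb P < y := hxb.trans hxy
          rcases lt_trichotomy (jR P x) (jR P y) with hj | hj | hj
          · exact (right_ne hP.cpt hi hxb hyb hj).ne'
          · have hpc := PR_piece hP.cpt hi hx hxb
            have hT : PR P y = PR P x := by unfold PR; rw [hj]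
            have hyT : y ∈ PR P x := ⟨hy, hyb, hj.symm⟩
            have h5 := ih (PR P x) (hpc.good hP) k x y hpc.mem hyT h1 h2 (hpc.cond hk)
              (ncard_drop hpc (drop_int hi hpc (fun hs => PR_kap hP.cpt hi hs)
                (Or.inr fun u hu => b1.trans hu.2.1) hact) hn)
            intro he
            rw [Phi_right hP.cpt hi hxb, Phi_right hP.cpt hi hyb, hT, ← hj] at he
            have h6 : rr ^ (jR P x + 1) * Phi (PR P x) x = rr ^ (jR P x + 1) * Phi (PR P x) y := by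
              linarith
            exact h5 (mul_left_cancel₀ (pow_pos rr_pos _).ne' h6)
          · exact (right_ne hP.cpt hi hyb hxb hj).ne
        · rcases lt_or_ge (bb P) y with hyb | hyb
          · have h3 : Phi P x ≤ 4 := (Phi_mid_bd hi hxa hxb).2
            have h4 : 4 < Phi P y := by
              have := (Phi_right_bd hP.cpt hi hyb).1
              obtain ⟨p1, p2⟩ := pw (jR P y)
              linarith
            exact (lt_of_le_of_lt h3 h4).ne
          · rw [Phi_mid hi hxa hxb, Phi_mid hi (hxa.trans hxy.le) hyb]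
            have h5 : 0 < bb P - aa P := by linarith
            have h6 : (x - aa P) / (bb P - aa P) < (y - aa P) / (bb P - aa P) :=
              div_lt_div_of_pos_right (by linarith) h5
            intro he; linarith
    · have hs := hP.split hi hx
      have hpc := PF_piece hP.cpt hs hx
      by_cases hside : (qq (kap P) < y ↔ qq (kap P) < x)
      · have hyT : y ∈ PF P x := ⟨hy, hside⟩
        have hT : PF P y = PF P x := by
          unfold PF; ext z; simp only [mem_ofPred_eq]; rw [hside]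
        have h5 := ih (PF P x) (hpc.good hP) k x y hpc.mem hyT h1 h2 (hpc.cond hk)
              (ncard_drop hpc (drop_free hi hpc PF_kap hact) hn)
        intro he
        by_cases hx1 : qq (kap P) < x
        · rw [Phi_free1 hi hx1, Phi_free1 hi (hside.mpr hx1), hT] at he
          have h6 : rr * Phi (PF P x) x = rr * Phi (PF P x) y := by linarith
          exact h5 (mul_left_cancel₀ rr_pos.ne' h6)
        · rw [Phi_free0 hi hx1, Phi_free0 hi (fun h => hx1 (hside.mp h)), hT] at he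
          exact h5 (mul_left_cancel₀ rr_pos.ne' he)
      · have hx1 : ¬ qq (kap P) < x := by
          intro h; apply hside; exact ⟨fun _ => h, fun _ => h.trans hxy⟩
        have hy1 : qq (kap P) < y := by
          by_contra h; apply hside; exact ⟨fun h' => absurd h' h, fun h' => absurd h' hx1⟩
        rw [Phi_free0 hi hx1, Phi_free1 hi hy1]
        obtain ⟨b1, b2⟩ := Phi_bound (PF P x) x
        obtain ⟨c1, c2⟩ := Phi_bound (PF P y) y
        intro he
        unfold rr at he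
        linarith

theorem Phi_inj {P : Set ℝ} (hP : Good P) : InjOn (Phi P) P := by
  have key : ∀ x ∈ P, ∀ y ∈ P, x < y → Phi P x ≠ Phi P y := by
    intro x hx y hy hxy
    by_cases h : ∃ j, x < qq j ∧ qq j < y ∧ qq j ∉ P
    · obtain ⟨k, h1, h2, h3⟩ := h
      exact Phi_inj_aux _ P hP k x y hx hy h1 h2 (Or.inl h3) (le_refl _)
    · push Not at h
      have h1 : Ioo x y ⊆ P := Ioo_sub hP.cpt.isClosed h
      obtain ⟨k, hk1, hk2⟩ := exists_qq hxy
      have h2 : qq k ∈ interior P := isOpen_Ioo.subset_interior_iff.mpr h1 ⟨hk1, hk2⟩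
      exact Phi_inj_aux _ P hP k x y hx hy hk1 hk2 (Or.inr h2) (le_refl _)
  intro x hx y hy he
  by_contra hne
  rcases lt_or_gt_of_ne hne with h | h
  · exact key x hx y hy h he
  · exact key y hy x hx h he.symm

end

end Pool.Agent.X238.Sums
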