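import Pool.Agent.X238.Sums.Basic

/-!
# Pieces of compact perfect sets: the first interval, the parts to the left and to the right of it
-/

namespace Pool.Agent.X238.Sums

open Set Filter Topology

noncomputable section

/-- index of the first rational in the interior -/
def lam (P : Set ℝ) : ℕ := sInf {k | qq k ∈ interior P}
/-- left end of the interval of `P` around that rational -/
def aa (P : Set ℝ) : ℝ := sInf {t | t ≤ qq (lam P) ∧ Icc t (qq (lam P)) ⊆ P}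
/-- right end -/
def bb (P : Set ℝ) : ℝ := sSup {t | qq (lam P) ≤ t ∧ Icc (qq (lam P)) t ⊆ P}
/-- first gap rational between `x` and the left end -/
def jL (P : Set ℝ) (x : ℝ) : ℕ := sInf {j | qq j ∉ P ∧ x < qq j ∧ qq j < aa P}
/-- first gap rational between the right end and `x` -/
def jR (P : Set ℝ) (x : ℝ) : ℕ := sInf {j | qq j ∉ P ∧ bb P < qq j ∧ qq j < x}
/-- a gap rational splitting `P` -/
def Split (P : Set ℝ) (j : ℕ) : Prop := qq j ∉ P ∧ (∃ u ∈ P, u < qq j) ∧ (∃ v ∈ P, qq j < v)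
/-- the first gap rational splitting `P` -/
def kap (P : Set ℝ) : ℕ := sInf {j | Split P j}

theorem Ioo_sub {P : Set ℝ} (hP : IsClosed P) {x y : ℝ}
    (h : ∀ j, x < qq j → qq j < y → qq j ∈ P) : Ioo x y ⊆ P := by
  intro z hz
  by_contra hn
  have h1 : Pᶜ ∈ 𝓝 z := hP.isOpen_compl.mem_nhds hn
  obtain ⟨l, u, hzu, hs⟩ := mem_nhds_iff_exists_Ioo_subset.mp h1
  have h2 : z < min u y := lt_min hzu.2 hz.2
  obtain ⟨j, hj1, hj2⟩ := exists_qq h2
  have h3 := h j (hz.1.trans hj1) (hj2.trans_le (min_le_right _ _))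
  exact hs ⟨hzu.1.trans hj1, hj2.trans_le (min_le_left _ _)⟩ h3

theorem lam_mem {P : Set ℝ} (h : (interior P).Nonempty) : qq (lam P) ∈ interior P := by
  have : {k | qq k ∈ interior P}.Nonempty := by
    obtain ⟨x, hx⟩ := h
    obtain ⟨l, u, hzu, hs⟩ := mem_nhds_iff_exists_Ioo_subset.mp (isOpen_interior.mem_nhds hx)
    obtain ⟨j, hj1, hj2⟩ := exists_qq hzu.2
    exact ⟨j, hs ⟨hzu.1.trans hj1, hj2⟩⟩
  exact Nat.sInf_mem this

theorem a_facts {P : Set ℝ} (hP : IsCompact P) (hi : (interior P).Nonempty) :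
    aa P < qq (lam P) ∧ Icc (aa P) (qq (lam P)) ⊆ P ∧
      ∀ x, x < aa P → ∃ j, qq j ∉ P ∧ x < qq j ∧ qq j < aa P := by
  have hm := lam_mem hi
  set m := qq (lam P) with hmd
  set A : Set ℝ := {t | t ≤ m ∧ Icc t m ⊆ P} with hA
  have hmA : m ∈ A := ⟨le_refl _, by rw [Icc_self]; exact singleton_subset_iff.mpr (interior_subset hm)⟩
  have hAP : A ⊆ P := fun t ht => ht.2 ⟨le_refl _, ht.1⟩
  have hbd : BddBelow A := hP.bddBelow.mono hAP
  obtain ⟨l, u, hzu, hs⟩ := mem_nhds_iff_exists_Ioo_subset.mp (isOpen_interior.mem_nhds hm)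
  have h1 : aa P < m := by
    have ht : (l + m) / 2 ∈ A := by
      refine ⟨by linarith [hzu.1], ?_⟩
      intro z hz
      exact interior_subset (hs ⟨by linarith [hz.1, hzu.1], lt_of_le_of_lt hz.2 hzu.2⟩)
    have : aa P ≤ (l + m) / 2 := csInf_le hbd ht
    linarith [hzu.1]
  have hcl : aa P ∈ P := by
    have h2 : aa P ∈ closure A := csInf_mem_closure ⟨m, hmA⟩ hbd
    exact hP.isClosed.closure_subset_iff.mpr hAP h2
  have h2 : Icc (aa P) m ⊆ P := by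
    intro z hz
    rcases eq_or_lt_of_le hz.1 with h | h
    · rw [← h]; exact hcl
    · obtain ⟨t, ht, htz⟩ := exists_lt_of_csInf_lt ⟨m, hmA⟩ h
      exact ht.2 ⟨htz.le, hz.2⟩
  refine ⟨h1, h2, ?_⟩
  intro x hx
  by_contra hn
  push Not at hn
  have h3 : Ioo x (aa P) ⊆ P := by
    apply Ioo_sub hP.isClosed
    intro j hj1 hj2
    by_contra h4
    exact absurd (hn j h4 hj1) (not_le.mpr hj2)
  have h4 : (x + aa P) / 2 ∈ A := by
    refine ⟨by linarith, ?_⟩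
    intro z hz
    rcases lt_or_ge z (aa P) with h | h
    · exact h3 ⟨by linarith [hz.1], h⟩
    · exact h2 ⟨h, hz.2⟩
  have : aa P ≤ (x + aa P) / 2 := csInf_le hbd h4
  linarith

theorem b_facts {P : Set ℝ} (hP : IsCompact P) (hi : (interior P).Nonempty) :
    qq (lam P) < bb P ∧ Icc (qq (lam P)) (bb P) ⊆ P ∧
      ∀ x, bb P < x → ∃ j, qq j ∉ P ∧ bb P < qq j ∧ qq j < x := by
  have hm := lam_mem hi
  set m := qq (lam P) with hmd
  set A : Set ℝ := {t | m ≤ t ∧ Icc m t ⊆ P} with hA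
  have hmA : m ∈ A := ⟨le_refl _, by rw [Icc_self]; exact singleton_subset_iff.mpr (interior_subset hm)⟩
  have hAP : A ⊆ P := fun t ht => ht.2 ⟨ht.1, le_refl _⟩
  have hbd : BddAbove A := hP.bddAbove.mono hAP
  obtain ⟨l, u, hzu, hs⟩ := mem_nhds_iff_exists_Ioo_subset.mp (isOpen_interior.mem_nhds hm)
  have h1 : m < bb P := by
    have ht : (u + m) / 2 ∈ A := by
      refine ⟨by linarith [hzu.2], ?_⟩
      intro z hz
      exact interior_subset (hs ⟨lt_of_lt_of_le hzu.1 hz.1, by linarith [hz.2, hzu.2]⟩)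
    have : (u + m) / 2 ≤ bb P := le_csSup hbd ht
    linarith [hzu.2]
  have hcl : bb P ∈ P := by
    have h2 : bb P ∈ closure A := csSup_mem_closure ⟨m, hmA⟩ hbd
    exact hP.isClosed.closure_subset_iff.mpr hAP h2
  have h2 : Icc m (bb P) ⊆ P := by
    intro z hz
    rcases eq_or_lt_of_le hz.2 with h | h
    · rw [h]; exact hcl
    · obtain ⟨t, ht, htz⟩ := exists_lt_of_lt_csSup ⟨m, hmA⟩ h
      exact ht.2 ⟨hz.1, htz.le⟩
  refine ⟨h1, h2, ?_⟩
  intro x hx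
  by_contra hn
  push Not at hn
  have h3 : Ioo (bb P) x ⊆ P := by
    apply Ioo_sub hP.isClosed
    intro j hj1 hj2
    by_contra h4
    exact absurd (hn j h4 hj1) (not_le.mpr hj2)
  have h4 : (x + bb P) / 2 ∈ A := by
    refine ⟨by linarith, ?_⟩
    intro z hz
    rcases lt_or_ge (bb P) z with h | h
    · exact h3 ⟨h, by linarith [hz.2]⟩
    · exact h2 ⟨hz.1, h⟩
  have : (x + bb P) / 2 ≤ bb P := le_csSup hbd h4
  linarith

theorem jL_spec {P : Set ℝ} (hP : IsCompact P) (hi : (interior P).Nonempty) {x : ℝ} (hx : x < aa P) :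
    (qq (jL P x) ∉ P ∧ x < qq (jL P x) ∧ qq (jL P x) < aa P) ∧
      ∀ j < jL P x, qq j ∉ P → qq j < aa P → qq j ≤ x := by
  obtain ⟨j, hj⟩ := (a_facts hP hi).2.2 x hx
  have hne : {j | qq j ∉ P ∧ x < qq j ∧ qq j < aa P}.Nonempty := ⟨j, hj⟩
  refine ⟨Nat.sInf_mem hne, ?_⟩
  intro i hi1 h1 h2
  by_contra h3
  exact Nat.notMem_of_lt_sInf hi1 ⟨h1, not_le.mp h3, h2⟩

theorem jR_spec {P : Set ℝ} (hP : IsCompact P) (hi : (interior P).Nonempty) {x : ℝ} (hx : bb P < x) :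
    (qq (jR P x) ∉ P ∧ bb P < qq (jR P x) ∧ qq (jR P x) < x) ∧
      ∀ j < jR P x, qq j ∉ P → bb P < qq j → x ≤ qq j := by
  obtain ⟨j, hj⟩ := (b_facts hP hi).2.2 x hx
  have hne : {j | qq j ∉ P ∧ bb P < qq j ∧ qq j < x}.Nonempty := ⟨j, hj⟩
  refine ⟨Nat.sInf_mem hne, ?_⟩
  intro i hi1 h1 h2
  by_contra h3
  exact Nat.notMem_of_lt_sInf hi1 ⟨h1, h2, not_le.mp h3⟩

/-- the left piece of `x` -/
def PL (P : Set ℝ) (x : ℝ) : Set ℝ := {y | y ∈ P ∧ y < aa P ∧ jL P y = jL P x}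
/-- the right piece of `x` -/
def PR (P : Set ℝ) (x : ℝ) : Set ℝ := {y | y ∈ P ∧ bb P < y ∧ jR P y = jR P x}
/-- the side of `x` in an interior-free set -/
def PF (P : Set ℝ) (x : ℝ) : Set ℝ := {y | y ∈ P ∧ (qq (kap P) < y ↔ qq (kap P) < x)}

/-- `T` is a piece of `P` containing `x` -/
structure Piece (P T : Set ℝ) (x : ℝ) : Prop where
  mem : x ∈ T
  closed : IsClosed T
  ex : ∃ U : Set ℝ, IsOpen U ∧ OrdConnected U ∧ T = P ∩ U

theorem isOpen_fin (n : ℕ) (c : ℕ → Prop) (f : ℕ → Set ℝ) (hf : ∀ i, IsOpen (f i)) :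
    IsOpen {y | ∀ i < n, c i → y ∈ f i} := by
  have h : {y | ∀ i < n, c i → y ∈ f i} = ⋂ i ∈ {i | i < n}, {y | c i → y ∈ f i} := by
    ext y; simp
  rw [h]
  apply (Set.finite_lt_nat n).isOpen_biInter
  intro i _
  by_cases hc : c i
  · have : {y | c i → y ∈ f i} = f i := by ext y; simp [hc]
    rw [this]; exact hf i
  · have : {y | c i → y ∈ f i} = univ := by ext y; simp [hc]
    rw [this]; exact isOpen_univ

theorem isClosed_fin (n : ℕ) (c : ℕ → Prop) (f : ℕ → Set ℝ) (hf : ∀ i, IsClosed (f i)) :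
    IsClosed {y | ∀ i < n, c i → y ∈ f i} := by
  have h : {y | ∀ i < n, c i → y ∈ f i} = ⋂ i, ⋂ (_ : i < n), ⋂ (_ : c i), f i := by
    ext y; simp
  rw [h]
  exact isClosed_iInter fun i => isClosed_iInter fun _ => isClosed_iInter fun _ => hf i

theorem PL_char {P : Set ℝ} (hP : IsCompact P) (hi : (interior P).Nonempty) {x : ℝ} (hx : x < aa P) :
    PL P x = P ∩ ({y | y < qq (jL P x)} ∩ {y | ∀ i < jL P x, (qq i ∉ P ∧ qq i < aa P) → y ∈ Ioi (qq i)}) := by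
  obtain ⟨⟨h1, h2, h3⟩, h4⟩ := jL_spec hP hi hx
  ext y
  constructor
  · rintro ⟨hy, hya, hj⟩
    obtain ⟨⟨k1, k2, k3⟩, k4⟩ := jL_spec hP hi hya
    rw [hj] at k1 k2 k3 k4
    refine ⟨hy, k2, ?_⟩
    intro i hi1 hi2
    have := k4 i hi1 hi2.1 hi2.2
    rcases eq_or_lt_of_le this with h | h
    · exfalso; apply hi2.1; rw [h]; exact hy
    · exact h
  · rintro ⟨hy, hyj, hall⟩
    have hya : y < aa P := lt_trans hyj h3
    refine ⟨hy, hya, ?_⟩
    apply le_antisymm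
    · exact Nat.sInf_le ⟨h1, hyj, h3⟩
    · by_contra hlt
      rw [not_le] at hlt
      obtain ⟨⟨k1, k2, k3⟩, k4⟩ := jL_spec hP hi hya
      have := hall _ hlt ⟨k1, k3⟩
      exact absurd this (not_lt.mpr k2.le)

theorem PR_char {P : Set ℝ} (hP : IsCompact P) (hi : (interior P).Nonempty) {x : ℝ} (hx : bb P < x) :
    PR P x = P ∩ ({y | qq (jR P x) < y} ∩ {y | ∀ i < jR P x, (qq i ∉ P ∧ bb P < qq i) → y ∈ Iio (qq i)}) := by
  obtain ⟨⟨h1, h2, h3⟩, h4⟩ := jR_spec hP hi hx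
  ext y
  constructor
  · rintro ⟨hy, hya, hj⟩
    obtain ⟨⟨k1, k2, k3⟩, k4⟩ := jR_spec hP hi hya
    rw [hj] at k1 k2 k3 k4
    refine ⟨hy, k3, ?_⟩
    intro i hi1 hi2
    have := k4 i hi1 hi2.1 hi2.2
    rcases eq_or_lt_of_le this with h | h
    · exfalso; apply hi2.1; rw [← h]; exact hy
    · exact h
  · rintro ⟨hy, hyj, hall⟩
    have hya : bb P < y := lt_trans h2 hyj
    refine ⟨hy, hya, ?_⟩
    apply le_antisymm
    · exact Nat.sInf_le ⟨h1, h2, hyj⟩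
    · by_contra hlt
      rw [not_le] at hlt
      obtain ⟨⟨k1, k2, k3⟩, k4⟩ := jR_spec hP hi hya
      have := hall _ hlt ⟨k1, k2⟩
      exact absurd this (not_lt.mpr k3.le)

theorem ordC_gt (n : ℕ) (c : ℕ → Prop) : OrdConnected {y : ℝ | ∀ i < n, c i → y ∈ Ioi (qq i)} := by
  refine ⟨fun u hu v _ w hw i hi hc => ?_⟩
  exact lt_of_lt_of_le (hu i hi hc) hw.1

theorem ordC_lt (n : ℕ) (c : ℕ → Prop) : OrdConnected {y : ℝ | ∀ i < n, c i → y ∈ Iio (qq i)} := by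
  refine ⟨fun u _ v hv w hw i hi hc => ?_⟩
  exact lt_of_le_of_lt hw.2 (hv i hi hc)

theorem PL_piece {P : Set ℝ} (hP : IsCompact P) (hi : (interior P).Nonempty) {x : ℝ} (hxP : x ∈ P)
    (hx : x < aa P) : Piece P (PL P x) x := by
  obtain ⟨⟨h1, h2, h3⟩, h4⟩ := jL_spec hP hi hx
  refine ⟨⟨hxP, hx, rfl⟩, ?_, ?_⟩
  · have h : PL P x = P ∩ ({y | y ≤ qq (jL P x)} ∩
        {y | ∀ i < jL P x, (qq i ∉ P ∧ qq i < aa P) → y ∈ Ici (qq i)}) := by
      rw [PL_char hP hi hx]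
      ext y
      constructor
      · rintro ⟨hy, h5, h6⟩
        have h5' : y ≤ qq (jL P x) := le_of_lt (show y < qq (jL P x) from h5)
        exact ⟨hy, h5', fun i hi1 hi2 => mem_Ici.mpr (le_of_lt (mem_Ioi.mp (h6 i hi1 hi2)))⟩
      · rintro ⟨hy, h5, h6⟩
        have h5' : y < qq (jL P x) := by
          refine lt_of_le_of_ne (show y ≤ qq (jL P x) from h5) ?_
          intro h; apply h1; rw [← h]; exact hy
        refine ⟨hy, h5', fun i hi1 hi2 =>
          mem_Ioi.mpr (lt_of_le_of_ne (mem_Ici.mp (h6 i hi1 hi2)) ?_)⟩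
        · intro h; apply hi2.1; rw [h]; exact hy
    rw [h]
    exact hP.isClosed.inter (isClosed_Iic.inter (isClosed_fin _ _ _ (fun i => isClosed_Ici)))
  · exact ⟨_, isOpen_Iio.inter (isOpen_fin _ _ _ (fun i => isOpen_Ioi)),
      (ordConnected_Iio).inter (ordC_gt _ _), PL_char hP hi hx⟩

theorem PR_piece {P : Set ℝ} (hP : IsCompact P) (hi : (interior P).Nonempty) {x : ℝ} (hxP : x ∈ P)
    (hx : bb P < x) : Piece P (PR P x) x := by
  obtain ⟨⟨h1, h2, h3⟩, h4⟩ := jR_spec hP hi hx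
  refine ⟨⟨hxP, hx, rfl⟩, ?_, ?_⟩
  · have h : PR P x = P ∩ ({y | qq (jR P x) ≤ y} ∩
        {y | ∀ i < jR P x, (qq i ∉ P ∧ bb P < qq i) → y ∈ Iic (qq i)}) := by
      rw [PR_char hP hi hx]
      ext y
      constructor
      · rintro ⟨hy, h5, h6⟩
        have h5' : qq (jR P x) ≤ y := le_of_lt (show qq (jR P x) < y from h5)
        exact ⟨hy, h5', fun i hi1 hi2 => mem_Iic.mpr (le_of_lt (mem_Iio.mp (h6 i hi1 hi2)))⟩
      · rintro ⟨hy, h5, h6⟩
        have h5' : qq (jR P x) < y := by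
          refine lt_of_le_of_ne (show qq (jR P x) ≤ y from h5) ?_
          intro h; apply h1; rw [h]; exact hy
        refine ⟨hy, h5', fun i hi1 hi2 =>
          mem_Iio.mpr (lt_of_le_of_ne (mem_Iic.mp (h6 i hi1 hi2)) ?_)⟩
        · intro h; apply hi2.1; rw [← h]; exact hy
    rw [h]
    exact hP.isClosed.inter (isClosed_Ici.inter (isClosed_fin _ _ _ (fun i => isClosed_Iic)))
  · exact ⟨_, isOpen_Ioi.inter (isOpen_fin _ _ _ (fun i => isOpen_Iio)),
      (ordConnected_Ioi).inter (ordC_lt _ _), PR_char hP hi hx⟩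

theorem split_between {P : Set ℝ} (hP : IsClosed P) (hi : ¬ (interior P).Nonempty) {x y : ℝ}
    (hx : x ∈ P) (hy : y ∈ P) (h : x < y) : ∃ j, Split P j ∧ x < qq j ∧ qq j < y := by
  by_contra hn
  push Not at hn
  apply hi
  have h1 : Ioo x y ⊆ P := by
    apply Ioo_sub hP
    intro j hj1 hj2
    by_contra h2
    exact absurd (hn j ⟨h2, ⟨x, hx, hj1⟩, ⟨y, hy, hj2⟩⟩ hj1) (not_le.mpr hj2)
  have h2 : Ioo x y ⊆ interior P := isOpen_Ioo.subset_interior_iff.mpr h1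
  exact ⟨(x + y) / 2, h2 ⟨by linarith, by linarith⟩⟩

theorem kap_spec {P : Set ℝ} (h : ∃ j, Split P j) : Split P (kap P) := Nat.sInf_mem h

theorem PF_piece {P : Set ℝ} (hP : IsCompact P) (h : Split P (kap P)) {x : ℝ} (hxP : x ∈ P) :
    Piece P (PF P x) x := by
  obtain ⟨h1, h2, h3⟩ := h
  have hne : ∀ y ∈ P, y ≠ qq (kap P) := fun y hy he => h1 (he ▸ hy)
  by_cases hx : qq (kap P) < x
  · have e1 : PF P x = P ∩ Ioi (qq (kap P)) := by
      ext y; simp [PF, hx]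
    have e2 : PF P x = P ∩ Ici (qq (kap P)) := by
      rw [e1]; ext y; constructor
      · rintro ⟨hy, h5⟩; exact ⟨hy, mem_Ici.mpr (le_of_lt (mem_Ioi.mp h5))⟩
      · rintro ⟨hy, h5⟩; exact ⟨hy, mem_Ioi.mpr (lt_of_le_of_ne (mem_Ici.mp h5) (hne y hy).symm)⟩
    refine ⟨⟨hxP, Iff.rfl⟩, ?_, ⟨_, isOpen_Ioi, ordConnected_Ioi, e1⟩⟩
    rw [e2]; exact hP.isClosed.inter isClosed_Ici
  · have e1 : PF P x = P ∩ Iio (qq (kap P)) := by
      ext y
      constructor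
      · rintro ⟨hy, h5⟩
        have h6 : ¬ (qq (kap P) < y) := fun h => hx (h5.mp h)
        exact ⟨hy, lt_of_le_of_ne (not_lt.mp h6) (hne y hy)⟩
      · rintro ⟨hy, h5⟩
        have h7 : y < qq (kap P) := h5
        refine ⟨hy, ⟨fun h => absurd h (not_lt.mpr h7.le), fun h => absurd h hx⟩⟩
    have e2 : PF P x = P ∩ Iic (qq (kap P)) := by
      rw [e1]; ext y; constructor
      · rintro ⟨hy, h5⟩; exact ⟨hy, mem_Iic.mpr (le_of_lt (mem_Iio.mp h5))⟩
      · rintro ⟨hy, h5⟩; exact ⟨hy, mem_Iio.mpr (lt_of_le_of_ne (mem_Iic.mp h5) (hne y hy))⟩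
    refine ⟨⟨hxP, Iff.rfl⟩, ?_, ⟨_, isOpen_Iio, ordConnected_Iio, e1⟩⟩
    rw [e2]; exact hP.isClosed.inter isClosed_Iic

/-- compact and without isolated points -/
structure Good (P : Set ℝ) : Prop where
  cpt : IsCompact P
  pre : Preperfect P

theorem Piece.good {P T : Set ℝ} {x : ℝ} (h : Piece P T x) (hP : Good P) : Good T := by
  obtain ⟨U, hU, -, hT⟩ := h.ex
  have hsub : T ⊆ P := by rw [hT]; exact inter_subset_left
  refine ⟨hP.cpt.of_isClosed_subset h.closed hsub, ?_⟩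
  rw [hT, inter_comm]
  exact hP.pre.open_inter hU

theorem Piece.sub {P T : Set ℝ} {x : ℝ} (h : Piece P T x) : T ⊆ P := by
  obtain ⟨U, hU, -, hT⟩ := h.ex
  rw [hT]; exact inter_subset_left

theorem Piece.conv {P T : Set ℝ} {x : ℝ} (h : Piece P T x) {u v w : ℝ} (hu : u ∈ T) (hv : v ∈ T)
    (hw : w ∈ P) (h1 : u ≤ w) (h2 : w ≤ v) : w ∈ T := by
  obtain ⟨U, hU, hc, hT⟩ := h.ex
  rw [hT] at hu hv ⊢
  exact ⟨hw, hc.out hu.2 hv.2 ⟨h1, h2⟩⟩

theorem Good.split {P : Set ℝ} (hP : Good P) (hi : ¬ (interior P).Nonempty) {x : ℝ} (hx : x ∈ P) :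
    Split P (kap P) := by
  have h1 := hP.pre x hx
  rw [accPt_iff_nhds] at h1
  obtain ⟨y, ⟨-, hy⟩, hne⟩ := h1 univ univ_mem
  rcases lt_or_gt_of_ne hne with h | h
  · obtain ⟨j, hj, -⟩ := split_between hP.cpt.isClosed hi hy hx h
    exact kap_spec ⟨j, hj⟩
  · obtain ⟨j, hj, -⟩ := split_between hP.cpt.isClosed hi hx hy h
    exact kap_spec ⟨j, hj⟩

end

end Pool.Agent.X238.Sums
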