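import Pool.Agent.X238.Sums.Cont

/-!
# Saturation: the image of the coding map is a union of translates of the Cantor set `CC`
-/

namespace Pool.Agent.X238.Sums

open Set Filter Topology
open scoped Classical Pointwise

noncomputable section

theorem free_approx (n : ℕ) : ∀ P, Good P → ¬ (interior P).Nonempty → P.Nonempty →
    (∀ c ∈ CC, ∃ x ∈ P, |Phi P x - c| ≤ 5 * rr ^ n) ∧
    (∀ x ∈ P, ∃ c ∈ CC, |Phi P x - c| ≤ 5 * rr ^ n) := by
  induction n with
  | zero =>
    intro P hP hi hne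
    have key : ∀ x, ∀ c ∈ CC, |Phi P x - c| ≤ 5 * rr ^ 0 := by
      intro x c hc
      obtain ⟨b1, b2⟩ := Phi_bound P x
      have h1 := CC_nonneg hc
      have h2 := CC_le hc
      unfold MM at h2
      rw [pow_zero, mul_one, abs_le]; constructor <;> linarith
    obtain ⟨x0, hx0⟩ := hne
    exact ⟨fun c hc => ⟨x0, hx0, key _ _ hc⟩, fun x _ => ⟨0, zero_mem_CC, key _ _ zero_mem_CC⟩⟩
  | succ n ih =>
    intro P hP hi hne
    obtain ⟨x0, hx0⟩ := hne
    have hs := hP.split hi hx0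
    have hsc : ∀ t : ℝ, |t| ≤ 5 * rr ^ n → |rr * t| ≤ 5 * rr ^ (n + 1) := by
      intro t ht
      rw [abs_mul, abs_of_pos rr_pos]
      calc rr * |t| ≤ rr * (5 * rr ^ n) := mul_le_mul_of_nonneg_left ht rr_pos.le
        _ = 5 * rr ^ (n + 1) := by ring
    have hT : ∀ u ∈ P, Good (PF P u) ∧ ¬ (interior (PF P u)).Nonempty ∧ (PF P u).Nonempty := by
      intro u hu
      have hpc := PF_piece hP.cpt hs hu
      exact ⟨hpc.good hP, fun h => hi (h.mono (interior_mono hpc.sub)), ⟨u, hpc.mem⟩⟩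
    constructor
    · intro c hc
      obtain ⟨c', hc', h1 | h1⟩ := CC_rec hc
      · obtain ⟨-, ⟨u, hu, huk⟩, -⟩ := hs
        obtain ⟨g1, g2, g3⟩ := hT u hu
        obtain ⟨x, hx, h2⟩ := (ih _ g1 g2 g3).1 c' hc'
        have hx2 : ¬ qq (kap P) < x := fun h => absurd (hx.2.mp h) (not_lt.mpr huk.le)
        refine ⟨x, hx.1, ?_⟩
        rw [Phi_free0 hi hx2, PF_eq hx, h1, ← mul_sub]
        exact hsc _ h2
      · obtain ⟨-, -, ⟨u, hu, huk⟩⟩ := hs
        obtain ⟨g1, g2, g3⟩ := hT u hu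
        obtain ⟨x, hx, h2⟩ := (ih _ g1 g2 g3).1 c' hc'
        have hx2 : qq (kap P) < x := hx.2.mpr huk
        refine ⟨x, hx.1, ?_⟩
        rw [Phi_free1 hi hx2, PF_eq hx, h1]
        have h3 : 1 + rr * Phi (PF P u) x - (1 + rr * c') = rr * (Phi (PF P u) x - c') := by ring
        rw [h3]
        exact hsc _ h2
    · intro x hx
      obtain ⟨g1, g2, g3⟩ := hT x hx
      have hpc := PF_piece hP.cpt hs hx
      obtain ⟨c', hc', h2⟩ := (ih _ g1 g2 g3).2 x hpc.mem
      by_cases hx2 : qq (kap P) < x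
      · refine ⟨1 + rr * c', CC_one_cons hc', ?_⟩
        rw [Phi_free1 hi hx2]
        have h3 : 1 + rr * Phi (PF P x) x - (1 + rr * c') = rr * (Phi (PF P x) x - c') := by ring
        rw [h3]
        exact hsc _ h2
      · refine ⟨rr * c', CC_zero_cons hc', ?_⟩
        rw [Phi_free0 hi hx2, ← mul_sub]
        exact hsc _ h2

theorem closed_approx {A : Set ℝ} (hA : IsClosed A) {t : ℝ}
    (h : ∀ n : ℕ, ∃ s ∈ A, |s - t| ≤ 5 * rr ^ n) : t ∈ A := by
  rw [← hA.closure_eq, Metric.mem_closure_iff]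
  intro ε hε
  have h1 : Tendsto (fun n : ℕ => 5 * rr ^ n) atTop (𝓝 (5 * 0)) :=
    (tendsto_pow_atTop_nhds_zero_of_lt_one rr_pos.le rr_lt).const_mul 5
  rw [mul_zero] at h1
  obtain ⟨n, hn⟩ := (h1.eventually (gt_mem_nhds hε)).exists
  obtain ⟨s, hs, h2⟩ := h n
  refine ⟨s, hs, ?_⟩
  rw [dist_comm, Real.dist_eq]
  exact lt_of_le_of_lt h2 hn

theorem free_image {P : Set ℝ} (hP : Good P) (hi : ¬ (interior P).Nonempty) (hne : P.Nonempty) :
    CC ⊆ Phi P '' P ∧ Phi P '' P ⊆ CC := by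
  constructor
  · intro c hc
    apply closed_approx (W_compact hP).isClosed
    intro n
    obtain ⟨x, hx, h1⟩ := (free_approx n P hP hi hne).1 c hc
    exact ⟨_, mem_image_of_mem _ hx, h1⟩
  · rintro _ ⟨x, hx, rfl⟩
    apply closed_approx CC_compact.isClosed
    intro n
    obtain ⟨c, hc, h1⟩ := (free_approx n P hP hi hne).2 x hx
    refine ⟨c, hc, ?_⟩
    rw [abs_sub_comm]; exact h1

/-- the base points of translates of `CC` inside the image -/
def Bs (P : Set ℝ) : Set ℝ := {k | ∀ c ∈ CC, k + c ∈ Phi P '' P}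

/-- `y` lies in a translate of `CC` inside the image -/
def Sat (P : Set ℝ) (y : ℝ) : Prop := ∃ k ∈ Bs P, ∃ c ∈ CC, k + c = y

theorem mid_image {P : Set ℝ} (hP : Good P) (hi : (interior P).Nonempty) {t : ℝ} (h1 : 1 ≤ t)
    (h4 : t ≤ 4) : t ∈ Phi P '' P := by
  have hab := ab_lt hP.cpt hi
  have hpos : 0 < bb P - aa P := by linarith
  have e1 : aa P ≤ aa P + (t - 1) / 3 * (bb P - aa P) := by
    have : 0 ≤ (t - 1) / 3 * (bb P - aa P) := mul_nonneg (by linarith) hpos.le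
    linarith
  have e2 : aa P + (t - 1) / 3 * (bb P - aa P) ≤ bb P := by
    have : (t - 1) / 3 * (bb P - aa P) ≤ 1 * (bb P - aa P) :=
      mul_le_mul_of_nonneg_right (by linarith) hpos.le
    linarith
  refine ⟨aa P + (t - 1) / 3 * (bb P - aa P), ab_sub hP.cpt hi ⟨e1, e2⟩, ?_⟩
  rw [Phi_mid hi e1 e2]
  have : (aa P + (t - 1) / 3 * (bb P - aa P) - aa P) / (bb P - aa P) = (t - 1) / 3 := by
    field_simp
    ring
  rw [this]; ring

theorem Bs_nonneg {P : Set ℝ} {k : ℝ} (h : k ∈ Bs P) : 0 ≤ k ∧ k ≤ 5 := by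
  obtain ⟨x, -, hx⟩ := h 0 zero_mem_CC
  rw [add_zero] at hx
  rw [← hx]; exact Phi_bound P x

theorem sat_mid {P : Set ℝ} (hP : Good P) (hi : (interior P).Nonempty) {t : ℝ} (h1 : 1 ≤ t)
    (h4 : t ≤ 4) : Sat P t := by
  rcases le_total t 2 with h | h
  · refine ⟨t, ?_, 0, zero_mem_CC, add_zero t⟩
    intro c hc
    have g1 := CC_nonneg hc
    have g2 := CC_le hc
    unfold MM at g2
    exact mid_image hP hi (by linarith) (by linarith)
  · by_cases h3 : t ≤ 3 - 1/10
    · refine ⟨t, ?_, 0, zero_mem_CC, add_zero t⟩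
      intro c hc
      have g1 := CC_nonneg hc
      have g2 := CC_le hc
      unfold MM at g2
      exact mid_image hP hi (by linarith) (by linarith)
    · refine ⟨t - MM, ?_, MM, MM_mem_CC, by ring⟩
      intro c hc
      have g1 := CC_nonneg hc
      have g2 := CC_le hc
      rw [not_le] at h3
      apply mid_image hP hi
      · unfold MM at *; linarith
      · unfold MM at *; linarith

theorem sat_free {P : Set ℝ} (hP : Good P) (hi : ¬ (interior P).Nonempty) {x : ℝ} (hx : x ∈ P) :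
    Sat P (Phi P x) := by
  obtain ⟨h1, h2⟩ := free_image hP hi ⟨x, hx⟩
  refine ⟨0, ?_, Phi P x, h2 (mem_image_of_mem _ hx), zero_add _⟩
  intro c hc
  rw [zero_add]; exact h1 hc

theorem sat_left {P : Set ℝ} (hP : Good P) (hi : (interior P).Nonempty) {x y : ℝ}
    (hxa : x < aa P) (hs : Sat (PL P x) y) :
    Sat P (1 - rr ^ jL P x + rr ^ (jL P x + 1) * y) := by
  obtain ⟨k, hk, c, hc, rfl⟩ := hs
  obtain ⟨k0, k5⟩ := Bs_nonneg hk
  refine ⟨1 - rr ^ jL P x + rr ^ (jL P x + 1) * k, ?_, rr ^ (jL P x + 1) * c, CC_pow_cons hc _, by ring⟩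
  intro d hd
  obtain ⟨p1, p2⟩ := pw (jL P x)
  rcases CC_dich (jL P x) hd with ⟨d', hd', he⟩ | hge
  · obtain ⟨z, hz, hz2⟩ := hk d' hd'
    refine ⟨z, hz.1, ?_⟩
    rw [Phi_left hi hz.2.1, PL_eq hz, hz.2.2, hz2, he]; ring
  · have g2 := CC_le hd
    unfold MM at g2
    rw [pws]
    apply mid_image hP hi
    · nlinarith [mul_nonneg p1.le k0]
    · nlinarith [mul_nonneg p1.le k0, mul_nonneg p1.le (sub_nonneg.mpr k5)]

theorem sat_right {P : Set ℝ} (hP : Good P) (hi : (interior P).Nonempty) {x y : ℝ}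
    (hxb : bb P < x) (hs : Sat (PR P x) y) :
    Sat P (4 + rr ^ jR P x - rr ^ (jR P x + 1) * y) := by
  obtain ⟨k, hk, c, hc, rfl⟩ := hs
  obtain ⟨k0, k5⟩ := Bs_nonneg hk
  refine ⟨4 + rr ^ jR P x - rr ^ (jR P x + 1) * k - MM, ?_, MM - rr ^ (jR P x + 1) * c,
    CC_sym (CC_pow_cons hc _), by ring⟩
  intro d0 hd0
  obtain ⟨p1, p2⟩ := pw (jR P x)
  have hd : MM - d0 ∈ CC := CC_sym hd0
  have e0 : 4 + rr ^ jR P x - rr ^ (jR P x + 1) * k - MM + d0 =
      4 + rr ^ jR P x - rr ^ (jR P x + 1) * k - (MM - d0) := by ring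
  rw [e0]
  generalize MM - d0 = d at hd
  rcases CC_dich (jR P x) hd with ⟨d', hd', he⟩ | hge
  · obtain ⟨z, hz, hz2⟩ := hk d' hd'
    refine ⟨z, hz.1, ?_⟩
    rw [Phi_right hP.cpt hi hz.2.1, PR_eq hz, hz.2.2, hz2, he]; ring
  · have g2 := CC_le hd
    unfold MM at g2
    rw [pws]
    apply mid_image hP hi
    · nlinarith [mul_nonneg p1.le k0, mul_nonneg p1.le (sub_nonneg.mpr k5)]
    · nlinarith [mul_nonneg p1.le k0]

theorem sat_approx (n : ℕ) : ∀ P, Good P → ∀ x ∈ P, ∃ y, Sat P y ∧ |y - Phi P x| ≤ 5 * rr ^ n := by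
  induction n with
  | zero =>
    intro P hP x hx
    by_cases hi : (interior P).Nonempty
    · refine ⟨1, sat_mid hP hi (le_refl _) (by norm_num), ?_⟩
      obtain ⟨b1, b2⟩ := Phi_bound P x
      rw [pow_zero, mul_one, abs_le]; constructor <;> linarith
    · refine ⟨Phi P x, sat_free hP hi hx, ?_⟩
      simp
  | succ n ih =>
    intro P hP x hx
    have hself : ∀ t : ℝ, |t - t| ≤ 5 * rr ^ (n + 1) := by
      intro t; rw [sub_self, abs_zero]; have := (pw (n + 1)).1; positivity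
    by_cases hi : (interior P).Nonempty
    · rcases lt_or_ge x (aa P) with hxa | hxa
      · have hpc := PL_piece hP.cpt hi hx hxa
        obtain ⟨y, hy, hd⟩ := ih (PL P x) (hpc.good hP) x hpc.mem
        refine ⟨_, sat_left hP hi hxa hy, ?_⟩
        rw [Phi_left hi hxa]
        have h3 : 1 - rr ^ jL P x + rr ^ (jL P x + 1) * y -
            (1 - rr ^ jL P x + rr ^ (jL P x + 1) * Phi (PL P x) x) =
            rr ^ (jL P x + 1) * (y - Phi (PL P x) x) := by ring
        rw [h3, abs_mul, abs_of_pos (pow_pos rr_pos _)]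
        obtain ⟨p1, p2⟩ := pw (jL P x)
        calc rr ^ (jL P x + 1) * |y - Phi (PL P x) x| ≤ rr * (5 * rr ^ n) := by
              apply mul_le_mul _ hd (abs_nonneg _) rr_pos.le
              rw [pws]; unfold rr at *; linarith
          _ = 5 * rr ^ (n + 1) := by ring
      · rcases lt_or_ge (bb P) x with hxb | hxb
        · have hpc := PR_piece hP.cpt hi hx hxb
          obtain ⟨y, hy, hd⟩ := ih (PR P x) (hpc.good hP) x hpc.mem
          refine ⟨_, sat_right hP hi hxb hy, ?_⟩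
          rw [Phi_right hP.cpt hi hxb]
          have h3 : 4 + rr ^ jR P x - rr ^ (jR P x + 1) * y -
              (4 + rr ^ jR P x - rr ^ (jR P x + 1) * Phi (PR P x) x) =
              -(rr ^ (jR P x + 1) * (y - Phi (PR P x) x)) := by ring
          rw [h3, abs_neg, abs_mul, abs_of_pos (pow_pos rr_pos _)]
          obtain ⟨p1, p2⟩ := pw (jR P x)
          calc rr ^ (jR P x + 1) * |y - Phi (PR P x) x| ≤ rr * (5 * rr ^ n) := by
                apply mul_le_mul _ hd (abs_nonneg _) rr_pos.le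
                rw [pws]; unfold rr at *; linarith
            _ = 5 * rr ^ (n + 1) := by ring
        · obtain ⟨h1, h4⟩ := Phi_mid_bd hi hxa hxb
          exact ⟨_, sat_mid hP hi h1 h4, hself _⟩
    · exact ⟨_, sat_free hP hi hx, hself _⟩

theorem Bs_compact {P : Set ℝ} (hP : Good P) : IsCompact (Bs P) := by
  have hsub : Bs P ⊆ Phi P '' P := by
    intro k hk
    have := hk 0 zero_mem_CC
    rwa [add_zero] at this
  refine (W_compact hP).of_isClosed_subset ?_ hsub
  have h : Bs P = ⋂ c ∈ CC, (fun k => k + c) ⁻¹' (Phi P '' P) := by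
    ext k; simp [Bs]
  rw [h]
  exact isClosed_biInter fun c _ => (W_compact hP).isClosed.preimage (continuous_id.add continuous_const)

/-- the image of the coding map is `Bs P + CC` -/
theorem image_eq {P : Set ℝ} (hP : Good P) : Phi P '' P = Bs P + CC := by
  apply Subset.antisymm
  · rintro _ ⟨x, hx, rfl⟩
    apply closed_approx ((Bs_compact hP).add CC_compact).isClosed
    intro n
    obtain ⟨y, ⟨k, hk, c, hc, rfl⟩, h2⟩ := sat_approx n P hP x hx
    exact ⟨k + c, add_mem_add hk hc, h2⟩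
  · rintro _ ⟨k, hk, c, hc, rfl⟩
    exact hk c hc

end

end Pool.Agent.X238.Sums
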